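import Pool.Agent.Y400.Tur.Closed

/-!
The numerical part and the extremal systems.
-/

set_option autoImplicit false
set_option linter.unusedSectionVars false

namespace Pool.Agent.Y400.Tur

open Finset

theorem tangent_up (q u : ℕ) : ∀ d : ℕ,
    q.choose (u + 1) + d * q.choose u ≤ (q + d).choose (u + 1) := by
  intro d
  induction d with
  | zero => simp
  | succ d ih =>
    have h1 : (q + (d + 1)).choose (u + 1) = (q + d).choose u + (q + d).choose (u + 1) := by
      rw [← Nat.add_assoc, Nat.choose_succ_succ']
    have h2 : q.choose u ≤ (q + d).choose u := Nat.choose_le_choose u (by omega)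
    rw [h1, Nat.add_mul]
    omega

theorem tangent_down (x u : ℕ) : ∀ d : ℕ,
    (x + d).choose (u + 1) ≤ x.choose (u + 1) + d * (x + d).choose u := by
  intro d
  induction d with
  | zero => simp
  | succ d ih =>
    have h1 : (x + (d + 1)).choose (u + 1) = (x + d).choose u + (x + d).choose (u + 1) := by
      rw [← Nat.add_assoc, Nat.choose_succ_succ']
    have h2 : (x + d).choose u ≤ (x + (d + 1)).choose u := Nat.choose_le_choose u (by omega)
    have h3 : d * (x + d).choose u ≤ d * (x + (d + 1)).choose u := Nat.mul_le_mul_left _ h2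
    rw [h1, Nat.add_mul]
    omega

/-- the tangent inequality -/
theorem tangent (q x u : ℕ) :
    q.choose (u + 1) + x * q.choose u ≤ x.choose (u + 1) + q * q.choose u := by
  rcases le_total q x with h | h
  · obtain ⟨d, rfl⟩ := Nat.exists_eq_add_of_le h
    have := tangent_up q u d
    rw [Nat.add_mul]
    omega
  · obtain ⟨d, rfl⟩ := Nat.exists_eq_add_of_le h
    have := tangent_down x u d
    rw [Nat.add_mul]
    omega

/-- equality in the tangent inequality -/
theorem tangent_eq {q x u : ℕ} (hu : 1 ≤ u) (hq : u ≤ q)
    (h : x.choose (u + 1) + q * q.choose u = q.choose (u + 1) + x * q.choose u) :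
    x = q ∨ x = q + 1 := by
  by_contra hcon
  push Not at hcon
  rcases Nat.lt_or_ge x q with hx | hx
  · -- x < q
    obtain ⟨d, hd⟩ := Nat.exists_eq_add_of_lt hx
    have h1 := tangent_down x u d
    have h2 : q.choose (u + 1) = (x + d).choose u + (x + d).choose (u + 1) := by
      rw [hd, Nat.choose_succ_succ']
    have h3 : (x + d).choose u < q.choose u := by
      rw [hd]
      obtain ⟨v, rfl⟩ : ∃ v, u = v + 1 := ⟨u - 1, by omega⟩
      rw [Nat.choose_succ_succ']
      have : 0 < (x + d).choose v := Nat.choose_pos (by omega)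
      omega
    have h4 : d * (x + d).choose u ≤ d * q.choose u := Nat.mul_le_mul_left _ h3.le
    have h5 : q * q.choose u = x * q.choose u + d * q.choose u + q.choose u := by
      rw [show q = x + d + 1 from hd]; ring
    omega
  · obtain ⟨d, hd⟩ : ∃ d, x = q + 1 + (d + 1) := ⟨x - q - 2, by omega⟩
    have h1 := tangent_up (q + 1) u (d + 1)
    rw [← hd] at h1
    have h2 : (q + 1).choose (u + 1) = q.choose u + q.choose (u + 1) := Nat.choose_succ_succ' _ _
    have h3 : q.choose u < (q + 1).choose u := by
      obtain ⟨v, rfl⟩ : ∃ v, u = v + 1 := ⟨u - 1, by omega⟩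
      rw [Nat.choose_succ_succ']
      have : 0 < q.choose v := Nat.choose_pos (by omega)
      omega
    have h4 : (d + 1) * q.choose u < (d + 1) * (q + 1).choose u :=
      Nat.mul_lt_mul_of_pos_left h3 (by omega)
    have h5 : x * q.choose u = q * q.choose u + q.choose u + (d + 1) * q.choose u := by
      rw [hd]; ring
    omega

/-- the number of edges of the extremal system with `m` blocks on `N` vertices -/
def balNum (N m u : ℕ) : ℕ := m * (N / m).choose (u + 1) + (N % m) * (N / m).choose u

variable {V : Type} [DecidableEq V]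

theorem powersetCard_disjoint {u : ℕ} {Q : Finset (Finset V)}
    (hQ : (Q : Set (Finset V)).PairwiseDisjoint id) :
    (Q : Set (Finset V)).PairwiseDisjoint fun P => P.powersetCard (u + 1) := by
  intro P hP R hR hPR
  simp only [Function.onFun]
  rw [Finset.disjoint_left]
  intro S hS hS'
  rw [Finset.mem_powersetCard] at hS hS'
  have h := hQ hP hR hPR
  simp only [Function.onFun, id] at h
  rw [Finset.disjoint_left] at h
  obtain ⟨x, hx⟩ := Finset.card_pos.1 (by omega : 0 < S.card)
  exact h (hS.1 hx) (hS'.1 hx)

theorem card_biUnion_powersetCard {u : ℕ} {Q : Finset (Finset V)}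
    (hQ : (Q : Set (Finset V)).PairwiseDisjoint id) :
    (Q.biUnion fun P => P.powersetCard (u + 1)).card = ∑ P ∈ Q, P.card.choose (u + 1) := by
  rw [Finset.card_biUnion (powersetCard_disjoint hQ)]
  exact Finset.sum_congr rfl fun P _ => Finset.card_powersetCard _ _

theorem sum_tangent {u q : ℕ} (Q : Finset (Finset V)) :
    Q.card * q.choose (u + 1) + (∑ P ∈ Q, P.card) * q.choose u
      ≤ (∑ P ∈ Q, P.card.choose (u + 1)) + Q.card * (q * q.choose u) := by
  have h := Finset.sum_le_sum fun P (_ : P ∈ Q) => tangent q P.card u
  rw [Finset.sum_add_distrib, Finset.sum_add_distrib, Finset.sum_const, Finset.sum_const,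
    smul_eq_mul, smul_eq_mul, ← Finset.sum_mul] at h
  exact h

/-- the lower bound and the structure in the case of equality -/
theorem lower {n u k : ℕ} [Fintype V] (hV : Fintype.card V = n) (hu : 1 ≤ u) (huk : u + 1 < k)
    (hn : 2 * k * thr k u ≤ n) {G : Finset (Finset V)} (hG : Closed G u)
    (hcov : ∀ K : Finset V, K.card = k → ∃ E ∈ G, E ⊆ K) :
    balNum (n - (k - 1) % u) ((k - 1) / u) u ≤ G.card ∧
      (balNum (n - (k - 1) % u) ((k - 1) / u) u = G.card →
        ∃ Q : Finset (Finset V), (Q : Set (Finset V)).PairwiseDisjoint id ∧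
          Q.card = (k - 1) / u ∧ (∑ P ∈ Q, P.card = n - (k - 1) % u) ∧
          (∀ P ∈ Q, P.card = (n - (k - 1) % u) / ((k - 1) / u) ∨
            P.card = (n - (k - 1) % u) / ((k - 1) / u) + 1) ∧
          G = Q.biUnion fun P => P.powersetCard (u + 1)) := by
  classical
  set m := (k - 1) / u with hm
  set s := (k - 1) % u with hs
  have hks : m * u + s = k - 1 := by rw [hm, hs, Nat.mul_comm]; exact Nat.div_add_mod _ _
  have hsu : s < u := Nat.mod_lt _ hu
  have hmpos : 1 ≤ m := by
    by_contra hcon
    have : m = 0 := Nat.lt_one_iff.mp (not_le.mp hcon)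
    rw [this] at hks
    omega
  have harc : ∀ S ⊆ (Finset.univ : Finset V), Arc G S → S.card ≤ m * u + s := by
    intro S _ hS
    by_contra hcon
    push Not at hcon
    obtain ⟨K, hK, hKc⟩ := Finset.exists_subset_card_eq (by omega : k ≤ S.card)
    obtain ⟨E, hE, hEK⟩ := hcov K hKc
    exact hS E hE (hEK.trans hK)
  obtain ⟨Q, hQ1, hQ2, hQ3⟩ := structure_thm hu hG hsu m Finset.univ hks.le harc
  set N := n - s with hN
  set q := N / m with hq
  set r := N % m with hr
  have hNq : m * q + r = N := by rw [hq, hr]; exact Nat.div_add_mod _ _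
  have hthr : k - 1 ≤ thr k u := by unfold thr; omega
  have hsn : s ≤ n := by
    have h1 : s ≤ k - 1 := by omega
    have h2 : thr k u ≤ 2 * k * thr k u := Nat.le_mul_of_pos_left _ (by omega)
    omega
  -- the quotient is large
  have hqbig : 2 * thr k u ≤ q := by
    rw [hq, Nat.le_div_iff_mul_le (by omega)]
    have h1 : m ≤ k - 1 := by
      have : m * 1 ≤ m * u := Nat.mul_le_mul_left _ hu
      omega
    have h2 : 2 * thr k u * m ≤ 2 * thr k u * (k - 1) := Nat.mul_le_mul_left _ h1
    have h3 : 2 * k * thr k u = 2 * thr k u * (k - 1) + 2 * thr k u := by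
      obtain ⟨j, rfl⟩ : ∃ j, k = j + 1 := ⟨k - 1, by omega⟩
      rw [Nat.add_sub_cancel]; ring
    have h4 : s ≤ 2 * thr k u := by omega
    omega
  have huq : u ≤ q := by
    have : u ≤ thr k u := by omega
    omega
  have hC : 0 < q.choose u := Nat.choose_pos huq
  -- the members inside the blocks
  have hsub : (Q.biUnion fun P => P.powersetCard (u + 1)) ⊆ G := by
    intro S hS
    rw [Finset.mem_biUnion] at hS
    obtain ⟨P, hP, hS⟩ := hS
    rw [Finset.mem_powersetCard] at hS
    exact (hQ1 P hP).2 S hS.1 hS.2
  have hcard := Finset.card_le_card hsub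
  rw [card_biUnion_powersetCard hQ2] at hcard
  have hsum : (∑ P ∈ Q, P.card) + (Finset.univ \ Q.biUnion id).card = n := by
    have h1 : (Q.biUnion id).card = ∑ P ∈ Q, P.card := Finset.card_biUnion hQ2
    rw [← h1, ← hV, ← Finset.card_univ, Nat.add_comm]
    exact Finset.card_sdiff_add_card_eq_card (Finset.subset_univ _)
  have htan := sum_tangent (u := u) (q := q) Q
  have hbal : balNum N m u = m * q.choose (u + 1) + r * q.choose u := rfl
  have hchoose : q.choose (u + 1) * (u + 1) = q.choose u * (q - u) :=
    Nat.choose_succ_right_eq q u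
  rcases hQ3 with ⟨hQc, hR⟩ | ⟨hQc, hR⟩
  · -- the full number of blocks
    have hsumN : N ≤ ∑ P ∈ Q, P.card := by omega
    rw [hQc] at htan
    have h1 : N * q.choose u ≤ (∑ P ∈ Q, P.card) * q.choose u := Nat.mul_le_mul_right _ hsumN
    have h2 : N * q.choose u = m * (q * q.choose u) + r * q.choose u := by
      rw [← hNq]; ring
    refine ⟨by rw [hbal]; omega, fun heq => ?_⟩
    rw [hbal] at heq
    have e1 : (∑ P ∈ Q, P.card.choose (u + 1)) = G.card := by omega
    have e2 : N * q.choose u = (∑ P ∈ Q, P.card) * q.choose u := by omega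
    have e3 : N = ∑ P ∈ Q, P.card := Nat.eq_of_mul_eq_mul_right hC e2
    refine ⟨Q, hQ2, hQc, e3.symm, ?_, ?_⟩
    · -- sizes
      have hall : ∀ P ∈ Q, q.choose (u + 1) + P.card * q.choose u
          = P.card.choose (u + 1) + q * q.choose u := by
        refine (Finset.sum_eq_sum_iff_of_le fun P _ => tangent q P.card u).1 ?_
        rw [Finset.sum_add_distrib, Finset.sum_add_distrib, Finset.sum_const, Finset.sum_const,
          smul_eq_mul, smul_eq_mul, ← Finset.sum_mul, hQc]
        omega
      intro P hP
      exact tangent_eq hu huq (hall P hP).symm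
    · symm
      apply Finset.eq_of_subset_of_card_le hsub
      rw [card_biUnion_powersetCard hQ2]
      omega
  · -- too few blocks
    have hlt : balNum N m u < G.card := by
      rw [hbal]
      set j := Q.card with hj
      have hsumN : n ≤ (∑ P ∈ Q, P.card) + thr k u := by omega
      obtain ⟨d, hd⟩ : ∃ d, m = j + (d + 1) := ⟨m - j - 1, by omega⟩
      have h1 : n * q.choose u ≤ (∑ P ∈ Q, P.card) * q.choose u + thr k u * q.choose u := by
        rw [← Nat.add_mul]; exact Nat.mul_le_mul_right _ hsumN
      have h2 : n = m * q + r + s := by omega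
      have h3 : n * q.choose u = j * (q * q.choose u) + (d + 1) * (q * q.choose u)
          + r * q.choose u + s * q.choose u := by
        rw [h2, hd]; ring
      have h4 : m * q.choose (u + 1) = j * q.choose (u + 1) + (d + 1) * q.choose (u + 1) := by
        rw [hd]; ring
      -- the key inequality
      have h5 : (d + 1) * q.choose (u + 1) + thr k u * q.choose u
          < (d + 1) * (q * q.choose u) := by
        have h6 : (u + 1) * ((d + 1) * q.choose (u + 1) + thr k u * q.choose u)
            < (u + 1) * ((d + 1) * (q * q.choose u)) := by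
          have h7 : (u + 1) * ((d + 1) * q.choose (u + 1) + thr k u * q.choose u)
              = (d + 1) * (q.choose (u + 1) * (u + 1)) + (u + 1) * thr k u * q.choose u := by
            ring
          rw [h7, hchoose]
          have h8 : (u + 1) * ((d + 1) * (q * q.choose u))
              = ((u + 1) * (d + 1) * q) * q.choose u := by ring
          have h9 : (d + 1) * (q.choose u * (q - u)) + (u + 1) * thr k u * q.choose u
              = ((d + 1) * (q - u) + (u + 1) * thr k u) * q.choose u := by ring
          rw [h8, h9]
          refine Nat.mul_lt_mul_of_pos_right ?_ hC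
          obtain ⟨p, hp⟩ := Nat.exists_eq_add_of_le huq
          have h10 : q - u = p := by omega
          rw [h10]
          have h11 : (u + 1) * thr k u < u * (q + 1) := by
            have : (u + 1) * thr k u ≤ (2 * u) * thr k u := Nat.mul_le_mul_right _ (by omega)
            have h12 : (2 * u) * thr k u = u * (2 * thr k u) := by ring
            have h13 : u * (2 * thr k u) < u * (q + 1) :=
              Nat.mul_lt_mul_of_pos_left (by omega) (by omega)
            omega
          have h14 : u * (q + 1) ≤ (d + 1) * (u * (q + 1)) := Nat.le_mul_of_pos_left _ (by omega)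
          have h15 : (u + 1) * (d + 1) * q = (d + 1) * p + (d + 1) * (u * (q + 1)) := by
            rw [hp]; ring
          omega
        exact Nat.lt_of_mul_lt_mul_left h6
      omega
    exact ⟨hlt.le, fun h => absurd h (by omega)⟩

end Pool.Agent.Y400.Tur
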