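import Mathlib

/-!
Closed systems of `(u+1)`-sets: if two members share `u` elements, then all `(u+1)`-subsets of their
union are members.
-/

set_option autoImplicit false

namespace Pool.Agent.Y400.Tur

open Finset

variable {V : Type} [DecidableEq V]

/-- members have `u + 1` elements and two members sharing `u` elements generate a complete system -/
structure Closed (G : Finset (Finset V)) (u : ℕ) : Prop where
  card : ∀ E ∈ G, E.card = u + 1
  gen : ∀ A ∈ G, ∀ B ∈ G, (A ∩ B).card = u → ∀ S ⊆ A ∪ B, S.card = u + 1 → S ∈ G

/-- all `(u + 1)`-subsets belong to the system -/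
def Complete (G : Finset (Finset V)) (u : ℕ) (P : Finset V) : Prop :=
  ∀ S ⊆ P, S.card = u + 1 → S ∈ G

/-- sets without members -/
def Arc (G : Finset (Finset V)) (S : Finset V) : Prop := ∀ E ∈ G, ¬ E ⊆ S

/-- the block spanned by `T` -/
def blk (G : Finset (Finset V)) (W T : Finset V) : Finset V :=
  T ∪ W.filter fun v => insert v T ∈ G

theorem blk_complete {G : Finset (Finset V)} {u : ℕ} (hG : Closed G u) (W T : Finset V)
    (hT : T.card = u) : Complete G u (blk G W T) := by
  have key : ∀ r : ℕ, ∀ S : Finset V, S ⊆ blk G W T → S.card = u + 1 → (S \ T).card = r →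
      S ∈ G := by
    intro r
    induction r using Nat.strong_induction_on with
    | _ r ih =>
    intro S hS hSc hr
    have h1 : (S ∩ T).card + (S \ T).card = S.card := Finset.card_inter_add_card_sdiff S T
    have h2 : (T ∩ S).card + (T \ S).card = T.card := Finset.card_inter_add_card_sdiff T S
    rw [Finset.inter_comm T S] at h2
    rcases Nat.lt_or_ge r 2 with h | h
    · have hr1 : r = 1 := by
        by_contra hne
        have : r = 0 := by omega
        subst this
        have h3 : (S ∩ T).card ≤ T.card := Finset.card_le_card Finset.inter_subset_right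
        omega
      subst hr1
      obtain ⟨v, hv⟩ := Finset.card_eq_one.1 hr
      have hvS : v ∈ S \ T := by rw [hv]; exact Finset.mem_singleton_self v
      rw [Finset.mem_sdiff] at hvS
      have h4 : S ∩ T = T := Finset.eq_of_subset_of_card_le Finset.inter_subset_right (by omega)
      have h5 : S = insert v T := by
        rw [← Finset.sdiff_union_inter S T, hv, h4]
        rfl
      have h6 := hS hvS.1
      unfold blk at h6
      rw [Finset.mem_union, Finset.mem_filter] at h6
      rcases h6 with h6 | h6
      · exact absurd h6 hvS.2
      · rw [h5]; exact h6.2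
    · obtain ⟨a, ha, b, hb, hab⟩ := Finset.one_lt_card.1 (by omega : 1 < (S \ T).card)
      obtain ⟨w, hw⟩ := Finset.card_pos.1 (by omega : 0 < (T \ S).card)
      rw [Finset.mem_sdiff] at ha hb hw
      have hwa : w ≠ a := fun h => hw.2 (h ▸ ha.1)
      have hwb : w ≠ b := fun h => hw.2 (h ▸ hb.1)
      have hstep : ∀ c ∈ S, c ∉ T → insert w (S.erase c) ∈ G := by
        intro c hc hcT
        have hwS : w ∉ S.erase c := fun h => hw.2 (Finset.mem_of_mem_erase h)
        have hcard : (insert w (S.erase c)).card = u + 1 := by
          rw [Finset.card_insert_of_notMem hwS, Finset.card_erase_of_mem hc, hSc]; omega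
        have hsd : insert w (S.erase c) \ T = (S \ T).erase c := by
          ext x
          simp only [Finset.mem_sdiff, Finset.mem_insert, Finset.mem_erase]
          constructor
          · rintro ⟨h7 | ⟨h7, h8⟩, h9⟩
            · exact absurd (h7 ▸ hw.1) h9
            · exact ⟨h7, h8, h9⟩
          · rintro ⟨h7, h8, h9⟩
            exact ⟨Or.inr ⟨h7, h8⟩, h9⟩
        have hcsd : c ∈ S \ T := Finset.mem_sdiff.2 ⟨hc, hcT⟩
        refine ih (r - 1) (by omega) _ ?_ hcard ?_
        · intro x hx
          rw [Finset.mem_insert] at hx
          rcases hx with hx | hx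
          · subst hx
            unfold blk
            exact Finset.mem_union_left _ hw.1
          · exact hS (Finset.mem_of_mem_erase hx)
        · rw [hsd, Finset.card_erase_of_mem hcsd, hr]
      have hA := hstep a ha.1 ha.2
      have hB := hstep b hb.1 hb.2
      refine hG.gen _ hA _ hB ?_ S ?_ hSc
      · have : insert w (S.erase a) ∩ insert w (S.erase b) = insert w ((S.erase a).erase b) := by
          ext x
          simp only [Finset.mem_inter, Finset.mem_insert, Finset.mem_erase]
          tauto
        rw [this, Finset.card_insert_of_notMem, Finset.card_erase_of_mem, Finset.card_erase_of_mem ha.1,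
          hSc]
        · have : (S \ T).card ≤ S.card := Finset.card_le_card Finset.sdiff_subset
          omega
        · exact Finset.mem_erase.2 ⟨hab.symm, hb.1⟩
        · intro h
          exact hw.2 (Finset.mem_of_mem_erase (Finset.mem_of_mem_erase h))
      · intro x hx
        by_cases hxa : x = a
        · subst hxa
          exact Finset.mem_union_right _ (Finset.mem_insert_of_mem (Finset.mem_erase.2 ⟨hab, hx⟩))
        · exact Finset.mem_union_left _ (Finset.mem_insert_of_mem (Finset.mem_erase.2 ⟨hxa, hx⟩))
  intro S hS hSc
  exact key _ S hS hSc rfl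

/-- another block meets a block in fewer than `u` elements -/
theorem meet_small {G : Finset (Finset V)} {u : ℕ} (hG : Closed G u) {W T T' : Finset V}
    (hT : T.card = u) (hT' : T'.card = u) (hTW : T ⊆ W) {z : V} (hz : z ∈ T') (hzW : z ∈ W)
    (hzP : z ∉ blk G W T) :
    ((blk G W T).filter fun v => insert v T' ∈ G).card < u := by
  by_contra hcon
  push Not at hcon
  obtain ⟨Y, hY, hYc⟩ := Finset.exists_subset_card_eq hcon
  set P := blk G W T with hP
  have hPW : P ⊆ W := by
    intro x hx
    rw [hP] at hx
    unfold blk at hx
    rw [Finset.mem_union, Finset.mem_filter] at hx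
    rcases hx with hx | hx
    · exact hTW hx
    · exact hx.1
  have hYP : Y ⊆ P := fun x hx => (Finset.mem_filter.1 (hY hx)).1
  have hzY : z ∉ Y := fun h => hzP (hYP h)
  have hTc : T ⊆ P := by
    rw [hP]; unfold blk; exact Finset.subset_union_left
  have h1 : insert z Y ∈ G := by
    refine blk_complete hG W T' hT' _ ?_ ?_
    · intro x hx
      rw [Finset.mem_insert] at hx
      unfold blk
      rw [Finset.mem_union, Finset.mem_filter]
      rcases hx with hx | hx
      · subst hx; exact Or.inl hz
      · exact Or.inr ⟨hPW (hYP hx), (Finset.mem_filter.1 (hY hx)).2⟩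
    · rw [Finset.card_insert_of_notMem hzY, hYc]
  have hzT : z ∉ T := fun h => hzP (hTc h)
  have h2 : insert z T ∈ G := by
    refine blk_complete hG W Y hYc _ ?_ ?_
    · intro x hx
      rw [Finset.mem_insert] at hx
      unfold blk
      rw [Finset.mem_union, Finset.mem_filter]
      rcases hx with hx | hx
      · subst hx; exact Or.inr ⟨hzW, h1⟩
      · by_cases hxY : x ∈ Y
        · exact Or.inl hxY
        · refine Or.inr ⟨hTW hx, ?_⟩
          refine blk_complete hG W T hT _ ?_ ?_
          · intro y hy
            rw [Finset.mem_insert] at hy
            rcases hy with hy | hy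
            · subst hy; exact hTc hx
            · exact hYP hy
          · rw [Finset.card_insert_of_notMem hxY, hYc]
    · rw [Finset.card_insert_of_notMem hzT, hT]
  apply hzP
  rw [hP]
  unfold blk
  rw [Finset.mem_union, Finset.mem_filter]
  exact Or.inr ⟨hzW, h2⟩

/-- an arc outside a large block can be extended by `u` elements of the block -/
theorem arc_extend {G : Finset (Finset V)} {u : ℕ} (hG : Closed G u) {W T : Finset V}
    (hT : T.card = u) (hTW : T ⊆ W) {l : ℕ} (harc : ∀ S ⊆ W, Arc G S → S.card ≤ l)
    (hbig : (l.choose u + 1) * u ≤ (blk G W T).card) {A : Finset V} (hA : A ⊆ W \ blk G W T)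
    (hAarc : Arc G A) :
    ∀ i : ℕ, i ≤ u → ∃ X ⊆ blk G W T, X.card = i ∧ Arc G (A ∪ X) := by
  set P := blk G W T with hP
  have hPW : P ⊆ W := by
    intro x hx
    rw [hP] at hx
    unfold blk at hx
    rw [Finset.mem_union, Finset.mem_filter] at hx
    rcases hx with hx | hx
    · exact hTW hx
    · exact hx.1
  intro i
  induction i with
  | zero => intro _; exact ⟨∅, Finset.empty_subset _, rfl, by rw [Finset.union_empty]; exact hAarc⟩
  | succ i ih =>
    intro hi
    obtain ⟨X, hXP, hXc, hX⟩ := ih (by omega)
    have hAX : A ∪ X ⊆ W := Finset.union_subset (fun x hx => (Finset.mem_sdiff.1 (hA hx)).1)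
      (fun x hx => hPW (hXP hx))
    have hl := harc _ hAX hX
    classical
    set bad : Finset V := ((A ∪ X).powersetCard u).biUnion fun T' =>
      P.filter fun v => insert v T' ∈ G with hbad
    have hbadc : bad.card ≤ l.choose u * (u - 1) := by
      rw [hbad]
      refine (Finset.card_biUnion_le_card_mul _ _ (u - 1) ?_).trans ?_
      · intro T' hT'
        rw [Finset.mem_powersetCard] at hT'
        have : ∃ z ∈ T', z ∉ X := by
          by_contra hcon
          push Not at hcon
          have := Finset.card_le_card (fun x hx => hcon x hx : T' ⊆ X)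
          omega
        obtain ⟨z, hzT', hzX⟩ := this
        have hzA : z ∈ A := by
          rcases Finset.mem_union.1 (hT'.1 hzT') with h | h
          · exact h
          · exact absurd h hzX
        have hz := Finset.mem_sdiff.1 (hA hzA)
        have := meet_small hG hT hT'.2 hTW hzT' hz.1 hz.2
        rw [← hP] at this
        omega
      · refine Nat.mul_le_mul_right _ ?_
        rw [Finset.card_powersetCard]
        exact Nat.choose_le_choose u hl
    have hex : ∃ v ∈ P, v ∉ bad ∪ X := by
      by_contra hcon
      push Not at hcon
      have h1 := Finset.card_le_card (fun x hx => hcon x hx : P ⊆ bad ∪ X)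
      have h2 := Finset.card_union_le bad X
      have h3 : l.choose u * (u - 1) ≤ l.choose u * u := Nat.mul_le_mul_left _ (by omega)
      have h4 : (l.choose u + 1) * u = l.choose u * u + u := by ring
      omega
    obtain ⟨v, hvP, hv⟩ := hex
    rw [Finset.mem_union, not_or] at hv
    refine ⟨insert v X, ?_, ?_, ?_⟩
    · intro x hx
      rw [Finset.mem_insert] at hx
      rcases hx with hx | hx
      · subst hx; exact hvP
      · exact hXP hx
    · rw [Finset.card_insert_of_notMem hv.2, hXc]
    · intro E hE hEs
      by_cases hvE : v ∈ E
      · apply hv.1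
        rw [hbad, Finset.mem_biUnion]
        refine ⟨E.erase v, ?_, ?_⟩
        · rw [Finset.mem_powersetCard]
          refine ⟨?_, ?_⟩
          · intro x hx
            rw [Finset.mem_erase] at hx
            have := hEs hx.2
            rw [Finset.mem_union, Finset.mem_insert] at this
            rw [Finset.mem_union]
            rcases this with h | h | h
            · exact Or.inl h
            · exact absurd h hx.1
            · exact Or.inr h
          · rw [Finset.card_erase_of_mem hvE, hG.card E hE]; rfl
        · rw [Finset.mem_filter, Finset.insert_erase hvE]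
          exact ⟨hvP, hE⟩
      · apply hX E hE
        intro x hx
        have := hEs hx
        rw [Finset.mem_union, Finset.mem_insert] at this
        rw [Finset.mem_union]
        rcases this with h | h | h
        · exact Or.inl h
        · exact absurd (h ▸ hx) hvE
        · exact Or.inr h

/-- the threshold for the size of the part outside the blocks -/
def thr (k u : ℕ) : ℕ := (k - 1) + (k - 1).choose u * (((k - 1).choose u + 1) * u)

/-- the structure of closed systems without large arcs -/
theorem structure_thm {G : Finset (Finset V)} {u k : ℕ} (hu : 1 ≤ u) (hG : Closed G u) {s : ℕ}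
    (hs : s < u) : ∀ (m : ℕ) (W : Finset V), m * u + s ≤ k - 1 →
      (∀ S ⊆ W, Arc G S → S.card ≤ m * u + s) →
      ∃ Q : Finset (Finset V), (∀ P ∈ Q, P ⊆ W ∧ Complete G u P) ∧
        ((Q : Set (Finset V)).PairwiseDisjoint id) ∧
        ((Q.card = m ∧ (W \ Q.biUnion id).card ≤ s) ∨
          (Q.card < m ∧ (W \ Q.biUnion id).card ≤ thr k u)) := by
  intro m
  induction m with
  | zero =>
    intro W _ hW
    refine ⟨∅, by simp, by simp, Or.inl ⟨rfl, ?_⟩⟩
    rw [Finset.biUnion_empty, Finset.sdiff_empty]
    by_contra hcon
    push Not at hcon
    obtain ⟨S, hS, hSc⟩ := Finset.exists_subset_card_eq (by omega : s + 1 ≤ W.card)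
    have := hW S hS (fun E hE hES => by
      have h1 := Finset.card_le_card hES
      have h2 := hG.card E hE
      omega)
    omega
  | succ m ih =>
    intro W hk hW
    by_cases hsmall : W.card ≤ thr k u
    · exact ⟨∅, by simp, by simp, Or.inr ⟨by simp, by simpa using hsmall⟩⟩
    push Not at hsmall
    classical
    -- a largest arc
    obtain ⟨A, hA, hAmax⟩ := Finset.exists_max_image (W.powerset.filter fun S => Arc G S)
      Finset.card ⟨∅, by
        rw [Finset.mem_filter]
        refine ⟨Finset.empty_mem_powerset W, fun E hE hE2 => ?_⟩
        have h1 := Finset.card_le_card hE2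
        have h2 := hG.card E hE
        rw [Finset.card_empty] at h1
        omega⟩
    rw [Finset.mem_filter, Finset.mem_powerset] at hA
    have hAl := hW A hA.1 hA.2
    set c := (k - 1).choose u with hc
    have hex : ∃ T ∈ A.powersetCard u,
        (c + 1) * u ≤ (W.filter fun v => insert v T ∈ G).card := by
      by_contra hcon
      push Not at hcon
      have hcov : W ⊆ A ∪ (A.powersetCard u).biUnion fun T =>
          W.filter fun v => insert v T ∈ G := by
        intro v hv
        rw [Finset.mem_union]
        by_cases hvA : v ∈ A
        · exact Or.inl hvA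
        · right
          have hnot : ¬ Arc G (insert v A) := by
            intro h
            have h1 := hAmax (insert v A) (by
              rw [Finset.mem_filter, Finset.mem_powerset]
              exact ⟨Finset.insert_subset hv hA.1, h⟩)
            rw [Finset.card_insert_of_notMem hvA] at h1
            omega
          unfold Arc at hnot
          push Not at hnot
          obtain ⟨E, hE, hEs⟩ := hnot
          have hvE : v ∈ E := by
            by_contra hvE
            refine hA.2 E hE fun x hx => ?_
            rcases Finset.mem_insert.1 (hEs hx) with h | h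
            · exact absurd (h ▸ hx) hvE
            · exact h
          rw [Finset.mem_biUnion]
          refine ⟨E.erase v, ?_, ?_⟩
          · rw [Finset.mem_powersetCard]
            refine ⟨fun x hx => ?_, by rw [Finset.card_erase_of_mem hvE, hG.card E hE]; rfl⟩
            rw [Finset.mem_erase] at hx
            rcases Finset.mem_insert.1 (hEs hx.2) with h | h
            · exact absurd h hx.1
            · exact h
          · rw [Finset.mem_filter, Finset.insert_erase hvE]
            exact ⟨hv, hE⟩
      have h1 := Finset.card_le_card hcov
      have h2 := Finset.card_union_le A ((A.powersetCard u).biUnion fun T =>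
          W.filter fun v => insert v T ∈ G)
      have h3 : ((A.powersetCard u).biUnion fun T => W.filter fun v => insert v T ∈ G).card
          ≤ (A.powersetCard u).card * ((c + 1) * u) :=
        Finset.card_biUnion_le_card_mul _ _ _ fun T hT => (hcon T hT).le
      have h4 : (A.powersetCard u).card ≤ c := by
        rw [Finset.card_powersetCard, hc]
        exact Nat.choose_le_choose u (by omega)
      have h5 : (A.powersetCard u).card * ((c + 1) * u) ≤ c * ((c + 1) * u) :=
        Nat.mul_le_mul_right _ h4
      have h6 : thr k u = (k - 1) + c * ((c + 1) * u) := rfl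
      omega
    obtain ⟨T, hT, hTbig⟩ := hex
    rw [Finset.mem_powersetCard] at hT
    have hTW : T ⊆ W := hT.1.trans hA.1
    set P := blk G W T with hP
    have hPc : Complete G u P := blk_complete hG W T hT.2
    have hPW : P ⊆ W := by
      intro x hx
      rw [hP] at hx
      unfold blk at hx
      rw [Finset.mem_union, Finset.mem_filter] at hx
      rcases hx with hx | hx
      · exact hTW hx
      · exact hx.1
    have hPbig : (c + 1) * u ≤ P.card := by
      refine hTbig.trans (Finset.card_le_card ?_)
      rw [hP]; unfold blk; exact Finset.subset_union_right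
    have hlk : ((m + 1) * u + s).choose u ≤ c := by
      rw [hc]; exact Nat.choose_le_choose u hk
    have harc' : ∀ S ⊆ W \ P, Arc G S → S.card ≤ m * u + s := by
      intro S hS hSarc
      obtain ⟨X, hX, hXc, hXarc⟩ := arc_extend hG hT.2 hTW hW (l := (m + 1) * u + s)
        (le_trans (Nat.mul_le_mul_right _ (by omega)) hPbig) hS hSarc u le_rfl
      have h1 := hW (S ∪ X) (Finset.union_subset (fun x hx => (Finset.mem_sdiff.1 (hS hx)).1)
        (fun x hx => hPW (hX hx))) hXarc
      have h2 : Disjoint S X := by
        rw [Finset.disjoint_left]
        intro x hx hxX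
        exact (Finset.mem_sdiff.1 (hS hx)).2 (hX hxX)
      rw [Finset.card_union_of_disjoint h2, hXc] at h1
      have : (m + 1) * u = m * u + u := by ring
      omega
    have hk' : m * u + s ≤ k - 1 := by
      have : (m + 1) * u = m * u + u := by ring
      omega
    obtain ⟨Q, hQ1, hQ2, hQ3⟩ := ih (W \ P) hk' harc'
    have hPpos : 0 < P.card := by
      have : 0 < (c + 1) * u := by positivity
      omega
    have hPQ : P ∉ Q := by
      intro h
      have h1 := (hQ1 P h).1
      obtain ⟨x, hx⟩ := Finset.card_pos.1 hPpos
      exact (Finset.mem_sdiff.1 (h1 hx)).2 hx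
    refine ⟨insert P Q, ?_, ?_, ?_⟩
    · intro R hR
      rw [Finset.mem_insert] at hR
      rcases hR with hR | hR
      · subst hR; exact ⟨hPW, hPc⟩
      · exact ⟨(hQ1 R hR).1.trans Finset.sdiff_subset, (hQ1 R hR).2⟩
    · rw [Finset.coe_insert]
      refine hQ2.insert ?_
      intro R hR _
      simp only [id]
      rw [Finset.disjoint_right]
      intro x hx hxP
      exact (Finset.mem_sdiff.1 ((hQ1 R hR).1 hx)).2 hxP
    · have h1 : W \ (insert P Q).biUnion id = (W \ P) \ Q.biUnion id := by
        rw [Finset.biUnion_insert]
        ext x
        simp only [Finset.mem_sdiff, Finset.mem_union, id, not_or]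
        tauto
      rw [h1, Finset.card_insert_of_notMem hPQ]
      rcases hQ3 with h | h
      · exact Or.inl ⟨by omega, h.2⟩
      · exact Or.inr ⟨by omega, h.2⟩

end Pool.Agent.Y400.Tur
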