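import Mathlib

/-!
Covering families of `t`-sets which contain all `t`-subsets of a large set `A`: the mixed members
pay for the missing sets in the complement of `A`.
-/

set_option autoImplicit false
set_option linter.unusedSectionVars false

namespace Pool.Agent.Y400.Tur

open Finset

variable {V : Type} [Fintype V] [DecidableEq V]

/-- the members meeting both `A` and its complement -/
def mixed (G : Finset (Finset V)) (A : Finset V) : Finset (Finset V) :=
  G.filter fun D => ¬ D ⊆ A ∧ ¬ D ⊆ Aᶜ

/-- the weight of a set in the complement of `A` -/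
noncomputable def wt (G : Finset (Finset V)) (A : Finset V) (t : ℕ) (E : Finset V) : ℚ :=
  ∑ D ∈ (mixed G A).filter (fun D => D ∩ Aᶜ ⊆ E),
    1 / (((Aᶜ.card - (D ∩ Aᶜ).card).choose (t - (D ∩ Aᶜ).card) : ℕ) : ℚ)

theorem card_superset {A X : Finset V} {m : ℕ} (hX : X ⊆ A) (hm : X.card ≤ m) :
    ((A.powersetCard m).filter fun S => X ⊆ S).card
      = (A.card - X.card).choose (m - X.card) := by
  have h1 : (A \ X).card = A.card - X.card := Finset.card_sdiff_of_subset hX
  rw [← h1, ← Finset.card_powersetCard]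
  refine Finset.card_bij (fun S _ => S \ X) ?_ ?_ ?_
  · intro S hS
    rw [Finset.mem_filter, Finset.mem_powersetCard] at hS
    rw [Finset.mem_powersetCard]
    exact ⟨Finset.sdiff_subset_sdiff hS.1.1 le_rfl, by
      rw [Finset.card_sdiff_of_subset hS.2, hS.1.2]⟩
  · intro S hS S' hS' h
    rw [Finset.mem_filter] at hS hS'
    rw [← Finset.sdiff_union_of_subset hS.2, ← Finset.sdiff_union_of_subset hS'.2]
    rw [h]
  · intro S hS
    rw [Finset.mem_powersetCard] at hS
    have hd : Disjoint S X := by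
      rw [Finset.disjoint_left]
      intro x hx hxX
      exact (Finset.mem_sdiff.1 (hS.1 hx)).2 hxX
    refine ⟨S ∪ X, ?_, ?_⟩
    · rw [Finset.mem_filter, Finset.mem_powersetCard]
      refine ⟨⟨Finset.union_subset (hS.1.trans Finset.sdiff_subset) hX, ?_⟩,
        Finset.subset_union_right⟩
      rw [Finset.card_union_of_disjoint hd, hS.2]
      omega
    · rw [Finset.union_sdiff_right, Finset.sdiff_eq_self_of_disjoint hd]

theorem wt_nonneg (G : Finset (Finset V)) (A : Finset V) (t : ℕ) (E : Finset V) :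
    0 ≤ wt G A t E := Finset.sum_nonneg fun _ _ => by positivity

theorem sum_wt {G : Finset (Finset V)} {t : ℕ} (hG : ∀ E ∈ G, E.card = t) (A : Finset V)
    (hb : t ≤ Aᶜ.card) :
    ∑ E ∈ Aᶜ.powersetCard t, wt G A t E = ((mixed G A).card : ℚ) := by
  unfold wt
  simp_rw [Finset.sum_filter]
  rw [Finset.sum_comm]
  have h1 : ∀ D ∈ mixed G A, ∑ E ∈ Aᶜ.powersetCard t, (if D ∩ Aᶜ ⊆ E then
      1 / (((Aᶜ.card - (D ∩ Aᶜ).card).choose (t - (D ∩ Aᶜ).card) : ℕ) : ℚ) else 0) = 1 := by
    intro D hD
    unfold mixed at hD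
    rw [Finset.mem_filter] at hD
    have hDt := hG D hD.1
    have hc : (D ∩ Aᶜ).card ≤ t := hDt ▸ Finset.card_le_card Finset.inter_subset_left
    rw [← Finset.sum_filter, Finset.sum_const, card_superset Finset.inter_subset_right hc,
      nsmul_eq_mul]
    have hpos : 0 < (Aᶜ.card - (D ∩ Aᶜ).card).choose (t - (D ∩ Aᶜ).card) :=
      Nat.choose_pos (by omega)
    have : (((Aᶜ.card - (D ∩ Aᶜ).card).choose (t - (D ∩ Aᶜ).card) : ℕ) : ℚ) ≠ 0 := by
      exact_mod_cast hpos.ne'
    field_simp
  rw [Finset.sum_congr rfl h1, Finset.sum_const, nsmul_eq_mul, mul_one]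

/-- the reduction to the complement of `A` -/
theorem reduce {G : Finset (Finset V)} {t q : ℕ} (ht : 1 ≤ t) (htq : t ≤ q)
    (hG : ∀ E ∈ G, E.card = t) {A : Finset V} (hA : ∀ S ⊆ A, S.card = t → S ∈ G)
    (hheavy : t ≤ Aᶜ.card → ∀ B ⊆ Aᶜ, B.card = q → (∀ E ∈ G, ¬ E ⊆ B) →
      ∃ E ⊆ B, E.card = t ∧ 1 ≤ wt G A t E) :
    ∃ G' : Finset (Finset V), (∀ E ∈ G', E ⊆ Aᶜ ∧ E.card = t) ∧
      (∀ B ⊆ Aᶜ, B.card = q → ∃ E ∈ G', E ⊆ B) ∧ A.card.choose t + G'.card ≤ G.card := by
  classical
  have hsubA : A.powersetCard t ⊆ G := by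
    intro S hS
    rw [Finset.mem_powersetCard] at hS
    exact hA S hS.1 hS.2
  rcases Nat.lt_or_ge Aᶜ.card t with hb | hb
  · refine ⟨∅, by simp, ?_, ?_⟩
    · intro B hB hBc
      have := Finset.card_le_card hB
      omega
    · rw [Finset.card_empty, Nat.add_zero, ← Finset.card_powersetCard]
      exact Finset.card_le_card hsubA
  set H : Finset (Finset V) := (Aᶜ.powersetCard t).filter fun E => 1 ≤ wt G A t E with hH
  set GB : Finset (Finset V) := G.filter fun E => E ⊆ Aᶜ with hGB
  have hHc : H.card ≤ (mixed G A).card := by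
    have h1 : (H.card : ℚ) ≤ ((mixed G A).card : ℚ) := by
      rw [← sum_wt hG A hb]
      calc (H.card : ℚ) = ∑ E ∈ H, (1 : ℚ) := by simp
        _ ≤ ∑ E ∈ H, wt G A t E := Finset.sum_le_sum fun E hE => (Finset.mem_filter.1 hE).2
        _ ≤ ∑ E ∈ Aᶜ.powersetCard t, wt G A t E :=
            Finset.sum_le_sum_of_subset_of_nonneg (Finset.filter_subset _ _)
              fun E _ _ => wt_nonneg G A t E
    exact_mod_cast h1
  refine ⟨GB ∪ H, ?_, ?_, ?_⟩
  · intro E hE
    rw [Finset.mem_union, hGB, hH, Finset.mem_filter, Finset.mem_filter,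
      Finset.mem_powersetCard] at hE
    rcases hE with hE | hE
    · exact ⟨hE.2, hG E hE.1⟩
    · exact hE.1
  · intro B hB hBc
    by_cases h : ∃ E ∈ G, E ⊆ B
    · obtain ⟨E, hE, hEB⟩ := h
      exact ⟨E, Finset.mem_union_left _ (Finset.mem_filter.2 ⟨hE, hEB.trans hB⟩), hEB⟩
    · push Not at h
      obtain ⟨E, hE, hEc, hw⟩ := hheavy hb B hB hBc h
      exact ⟨E, Finset.mem_union_right _ (Finset.mem_filter.2
        ⟨Finset.mem_powersetCard.2 ⟨hE.trans hB, hEc⟩, hw⟩), hE⟩
  · have hd1 : Disjoint (A.powersetCard t) GB := by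
      rw [Finset.disjoint_left]
      intro S hS hS'
      rw [Finset.mem_powersetCard] at hS
      rw [hGB, Finset.mem_filter] at hS'
      obtain ⟨x, hx⟩ := Finset.card_pos.1 (by omega : 0 < S.card)
      exact (Finset.mem_compl.1 (hS'.2 hx)) (hS.1 hx)
    have hd2 : Disjoint (A.powersetCard t ∪ GB) (mixed G A) := by
      rw [Finset.disjoint_left]
      intro S hS hS'
      unfold mixed at hS'
      rw [Finset.mem_filter] at hS'
      rw [Finset.mem_union, Finset.mem_powersetCard, hGB, Finset.mem_filter] at hS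
      rcases hS with hS | hS
      · exact hS'.2.1 hS.1
      · exact hS'.2.2 hS.2
    have hsub : A.powersetCard t ∪ GB ∪ mixed G A ⊆ G :=
      Finset.union_subset (Finset.union_subset hsubA (Finset.filter_subset _ _))
        (Finset.filter_subset _ _)
    have h1 := Finset.card_le_card hsub
    rw [Finset.card_union_of_disjoint hd2, Finset.card_union_of_disjoint hd1,
      Finset.card_powersetCard] at h1
    have h2 := Finset.card_union_le GB H
    omega

theorem choose_mul_choose_le (m b : ℕ) : ∀ j : ℕ, m.choose j * b.choose j ≤ (m * b).choose j := by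
  intro j
  induction j with
  | zero => simp
  | succ j ih =>
    have h1 := Nat.choose_succ_right_eq m j
    have h2 := Nat.choose_succ_right_eq b j
    have h3 := Nat.choose_succ_right_eq (m * b) j
    have h4 : (m - j) * (b - j) ≤ m * b - j := by
      rcases Nat.lt_or_ge j m with hm | hm
      · rcases Nat.lt_or_ge j b with hb | hb
        · obtain ⟨x, rfl⟩ := Nat.exists_eq_add_of_lt hm
          obtain ⟨y, rfl⟩ := Nat.exists_eq_add_of_lt hb
          have e1 : j + x + 1 - j = x + 1 := by omega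
          have e2 : j + y + 1 - j = y + 1 := by omega
          rw [e1, e2]
          apply Nat.le_sub_of_add_le
          nlinarith
        · rw [Nat.sub_eq_zero_of_le hb]; simp
      · rw [Nat.sub_eq_zero_of_le hm]; simp
    have h5 : (m.choose (j + 1) * b.choose (j + 1)) * ((j + 1) * (j + 1))
        ≤ (m * b).choose (j + 1) * (j + 1) := by
      calc (m.choose (j + 1) * b.choose (j + 1)) * ((j + 1) * (j + 1))
          = (m.choose (j + 1) * (j + 1)) * (b.choose (j + 1) * (j + 1)) := by ring
        _ = (m.choose j * b.choose j) * ((m - j) * (b - j)) := by rw [h1, h2]; ring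
        _ ≤ (m * b).choose j * (m * b - j) := Nat.mul_le_mul ih h4
        _ = (m * b).choose (j + 1) * (j + 1) := h3.symm
    have h6 : (m.choose (j + 1) * b.choose (j + 1)) * (j + 1)
        ≤ (m.choose (j + 1) * b.choose (j + 1)) * ((j + 1) * (j + 1)) :=
      Nat.mul_le_mul_left _ (Nat.le_mul_of_pos_left _ (by omega))
    exact Nat.le_of_mul_le_mul_right (h6.trans h5) (by omega)

theorem mul_choose_le (m b : ℕ) : ∀ j : ℕ, 1 ≤ j → m * b.choose j ≤ (m * b).choose j := by
  intro j
  induction j with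
  | zero => intro h; omega
  | succ j ih =>
    intro _
    rcases Nat.eq_zero_or_pos m with rfl | hm
    · simp
    rcases Nat.eq_zero_or_pos j with rfl | hj
    · simp
    have h2 := Nat.choose_succ_right_eq b j
    have h3 := Nat.choose_succ_right_eq (m * b) j
    have h4 : b - j ≤ m * b - j := Nat.sub_le_sub_right (Nat.le_mul_of_pos_left _ hm) _
    have h5 : (m * b.choose (j + 1)) * (j + 1) ≤ (m * b).choose (j + 1) * (j + 1) := by
      calc (m * b.choose (j + 1)) * (j + 1) = (m * b.choose j) * (b - j) := by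
            rw [mul_assoc, h2]; ring
        _ ≤ (m * b).choose j * (m * b - j) := Nat.mul_le_mul (ih hj) h4
        _ = (m * b).choose (j + 1) * (j + 1) := h3.symm
    exact Nat.le_of_mul_le_mul_right h5 (by omega)

/-- the binomial inequality behind the general case -/
theorem binom_ineq {a b t c j : ℕ} (hj : 1 ≤ j) (h : (t - 1) * c * b ≤ a) :
    (t - 1).choose j * c * b.choose j ≤ a.choose j := by
  have h1 := choose_mul_choose_le (t - 1) b j
  have h2 := mul_choose_le c ((t - 1) * b) j hj
  calc (t - 1).choose j * c * b.choose j = c * ((t - 1).choose j * b.choose j) := by ring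
    _ ≤ c * ((t - 1) * b).choose j := Nat.mul_le_mul_left _ h1
    _ ≤ (c * ((t - 1) * b)).choose j := h2
    _ ≤ a.choose j := Nat.choose_le_choose j (by
        have : c * ((t - 1) * b) = (t - 1) * c * b := by ring
        omega)

/-- heavy sets, general case -/
theorem heavy_general {G : Finset (Finset V)} {t k q : ℕ} (ht : 1 ≤ t) (htq : t ≤ q)
    (hkq : k = q + t - 1)
    (hG : ∀ E ∈ G, E.card = t) {A : Finset V}
    (hcov : ∀ K : Finset V, K.card = k → ∃ E ∈ G, E ⊆ K)
    (hbig : (t - 1) * q.choose t * Aᶜ.card ≤ A.card) (hb : t ≤ Aᶜ.card)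
    {B : Finset V} (hB : B ⊆ Aᶜ) (hBc : B.card = q) (hno : ∀ E ∈ G, ¬ E ⊆ B) :
    ∃ E ⊆ B, E.card = t ∧ 1 ≤ wt G A t E := by
  classical
  by_contra hcon
  push Not at hcon
  set a := A.card with ha
  set b := Aᶜ.card with hbdef
  have hq1 : 1 ≤ q.choose t := Nat.choose_pos htq
  have hat : t - 1 ≤ a := by
    have h1 : (t - 1) * 1 ≤ (t - 1) * (q.choose t * b) :=
      Nat.mul_le_mul_left _ (Nat.mul_pos hq1 (by omega))
    have h2 : (t - 1) * (q.choose t * b) = (t - 1) * q.choose t * b := by ring
    omega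
  -- every `(t-1)`-subset of `A` is hit
  have hhit : ∀ A' ∈ A.powersetCard (t - 1), ∃ D ∈ mixed G A, D ∩ Aᶜ ⊆ B ∧ D ∩ A ⊆ A' := by
    intro A' hA'
    rw [Finset.mem_powersetCard] at hA'
    have hdis : Disjoint A' B := by
      rw [Finset.disjoint_left]
      intro x hx hxB
      exact (Finset.mem_compl.1 (hB hxB)) (hA'.1 hx)
    obtain ⟨D, hD, hDs⟩ := hcov (A' ∪ B) (by
      rw [Finset.card_union_of_disjoint hdis, hA'.2, hBc]; omega)
    have h1 : D ∩ Aᶜ ⊆ B := by
      intro x hx
      rw [Finset.mem_inter, Finset.mem_compl] at hx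
      rcases Finset.mem_union.1 (hDs hx.1) with h | h
      · exact absurd (hA'.1 h) hx.2
      · exact h
    have h2 : D ∩ A ⊆ A' := by
      intro x hx
      rw [Finset.mem_inter] at hx
      rcases Finset.mem_union.1 (hDs hx.1) with h | h
      · exact h
      · exact absurd hx.2 (Finset.mem_compl.1 (hB h))
    refine ⟨D, ?_, h1, h2⟩
    unfold mixed
    rw [Finset.mem_filter]
    refine ⟨hD, fun h => ?_, fun h => ?_⟩
    · have h3 : D ∩ A = D := Finset.inter_eq_left.2 h
      have h4 := Finset.card_le_card h2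
      rw [h3, hG D hD, hA'.2] at h4
      omega
    · have h3 : D ∩ Aᶜ = D := Finset.inter_eq_left.2 h
      exact hno D hD (h3 ▸ h1)
  -- the members near each `E`
  have hcount : (a.choose (t - 1) : ℚ) ≤ ∑ E ∈ B.powersetCard t,
      ∑ D ∈ (mixed G A).filter (fun D => D ∩ Aᶜ ⊆ E),
        (((a - (D ∩ A).card).choose (t - 1 - (D ∩ A).card) : ℕ) : ℚ) := by
    have h1 : A.powersetCard (t - 1) ⊆ (B.powersetCard t).biUnion fun E =>
        ((mixed G A).filter (fun D => D ∩ Aᶜ ⊆ E)).biUnion fun D =>
          (A.powersetCard (t - 1)).filter fun A' => D ∩ A ⊆ A' := by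
      intro A' hA'
      obtain ⟨D, hD, hD1, hD2⟩ := hhit A' hA'
      have hDc : (D ∩ Aᶜ).card ≤ t :=
        (hG D (Finset.mem_filter.1 hD).1) ▸ Finset.card_le_card Finset.inter_subset_left
      obtain ⟨E, hE1, hE2, hE3⟩ := Finset.exists_subsuperset_card_eq hD1 hDc (by omega)
      rw [Finset.mem_biUnion]
      refine ⟨E, Finset.mem_powersetCard.2 ⟨hE2, hE3⟩, ?_⟩
      rw [Finset.mem_biUnion]
      exact ⟨D, Finset.mem_filter.2 ⟨hD, hE1⟩, Finset.mem_filter.2 ⟨hA', hD2⟩⟩
    have h2 := Finset.card_le_card h1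
    rw [Finset.card_powersetCard] at h2
    have h3 : a.choose (t - 1) ≤ ∑ E ∈ B.powersetCard t,
        ∑ D ∈ (mixed G A).filter (fun D => D ∩ Aᶜ ⊆ E),
          (a - (D ∩ A).card).choose (t - 1 - (D ∩ A).card) := by
      refine h2.trans (Finset.card_biUnion_le.trans (Finset.sum_le_sum fun E _ => ?_))
      refine Finset.card_biUnion_le.trans (Finset.sum_le_sum fun D hD => ?_)
      have hDm := (Finset.mem_filter.1 hD).1
      unfold mixed at hDm
      rw [Finset.mem_filter] at hDm
      have hlt : (D ∩ A).card ≤ t - 1 := by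
        have h4 : (D ∩ A).card < D.card := by
          refine Finset.card_lt_card (Finset.ssubset_iff_subset_ne.2
            ⟨Finset.inter_subset_left, fun h => hDm.2.1 (Finset.inter_eq_left.1 h)⟩)
        rw [hG D hDm.1] at h4
        omega
      rw [card_superset Finset.inter_subset_right hlt]
    exact_mod_cast h3
  -- compare with the weights
  have hcmp : ∀ E ∈ B.powersetCard t,
      ∑ D ∈ (mixed G A).filter (fun D => D ∩ Aᶜ ⊆ E),
        (((a - (D ∩ A).card).choose (t - 1 - (D ∩ A).card) : ℕ) : ℚ)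
      ≤ (a.choose (t - 1) : ℚ) / (q.choose t : ℚ) * wt G A t E := by
    intro E _
    unfold wt
    rw [Finset.mul_sum]
    refine Finset.sum_le_sum fun D hD => ?_
    have hDm := (Finset.mem_filter.1 hD).1
    unfold mixed at hDm
    rw [Finset.mem_filter] at hDm
    have hDt := hG D hDm.1
    set j := (D ∩ A).card with hj
    have hsum : j + (D ∩ Aᶜ).card = t := by
      have h5 : D ∩ Aᶜ = D \ A := by
        ext x; simp [Finset.mem_sdiff]
      rw [hj, h5, Finset.card_inter_add_card_sdiff, hDt]
    have hj1 : 1 ≤ j := by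
      rw [Nat.one_le_iff_ne_zero]
      intro h0
      have h0' : D ∩ A = ∅ := Finset.card_eq_zero.1 h0
      apply hDm.2.2
      intro x hx
      rw [Finset.mem_compl]
      intro hxA
      have : x ∈ D ∩ A := Finset.mem_inter.2 ⟨hx, hxA⟩
      rw [h0'] at this
      simp at this
    have hjt : j ≤ t - 1 := by
      by_contra h6
      apply hDm.2.1
      have h7 : (D ∩ Aᶜ).card = 0 := by omega
      intro x hx
      by_contra hxA
      have : x ∈ D ∩ Aᶜ := Finset.mem_inter.2 ⟨hx, Finset.mem_compl.2 hxA⟩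
      rw [Finset.card_eq_zero.1 h7] at this
      simp at this
    have hDB : (D ∩ Aᶜ).card = t - j := by omega
    rw [hDB]
    have htj : t - (t - j) = j := by omega
    rw [htj]
    have hbj : j ≤ b - (t - j) := by omega
    have hpos1 : 0 < (b - (t - j)).choose j := Nat.choose_pos hbj
    have hpos2 : 0 < a.choose j := Nat.choose_pos (by omega)
    have h8 : (a - j).choose (t - 1 - j) * (q.choose t * (b - (t - j)).choose j)
        ≤ a.choose (t - 1) := by
      have h9 := Nat.choose_mul (n := a) (k := t - 1) (s := j) hjt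
      have h10 : (t - 1).choose j * q.choose t * (b - (t - j)).choose j ≤ a.choose j :=
        (Nat.mul_le_mul_left _ (Nat.choose_le_choose j (Nat.sub_le _ _))).trans
          (binom_ineq hj1 hbig)
      refine Nat.le_of_mul_le_mul_left ?_ hpos2
      calc a.choose j * ((a - j).choose (t - 1 - j) * (q.choose t * (b - (t - j)).choose j))
          = (a.choose j * (a - j).choose (t - 1 - j)) * (q.choose t * (b - (t - j)).choose j) := by
            ring
        _ = a.choose (t - 1) * ((t - 1).choose j * q.choose t * (b - (t - j)).choose j) := by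
            rw [← h9]; ring
        _ ≤ a.choose (t - 1) * a.choose j := Nat.mul_le_mul_left _ h10
        _ = a.choose j * a.choose (t - 1) := Nat.mul_comm _ _
    have h8' : (((a - j).choose (t - 1 - j) : ℕ) : ℚ) * ((q.choose t : ℚ) *
        (((b - (t - j)).choose j : ℕ) : ℚ)) ≤ (a.choose (t - 1) : ℚ) := by exact_mod_cast h8
    have hp1 : (0 : ℚ) < (((b - (t - j)).choose j : ℕ) : ℚ) := by exact_mod_cast hpos1
    have hp2 : (0 : ℚ) < (q.choose t : ℚ) := by exact_mod_cast hq1
    rw [div_mul_div_comm, mul_one, le_div_iff₀ (mul_pos hp2 hp1)]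
    exact h8'
  have hpos : (0 : ℚ) < (a.choose (t - 1) : ℚ) := by
    exact_mod_cast Nat.choose_pos hat
  have hp2 : (0 : ℚ) < (q.choose t : ℚ) := by exact_mod_cast hq1
  have hfin : ∑ E ∈ B.powersetCard t, (a.choose (t - 1) : ℚ) / (q.choose t : ℚ) * wt G A t E
      < (a.choose (t - 1) : ℚ) := by
    have h11 : ∑ E ∈ B.powersetCard t, (a.choose (t - 1) : ℚ) / (q.choose t : ℚ) * wt G A t E
        < ∑ E ∈ B.powersetCard t, (a.choose (t - 1) : ℚ) / (q.choose t : ℚ) * 1 := by
      refine Finset.sum_lt_sum_of_nonempty ?_ ?_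
      · rw [← Finset.card_pos, Finset.card_powersetCard, hBc]; exact hq1
      · intro E hE
        rw [Finset.mem_powersetCard] at hE
        exact mul_lt_mul_of_pos_left (hcon E hE.1 hE.2) (by positivity)
    refine h11.trans_le ?_
    rw [Finset.sum_const, Finset.card_powersetCard, hBc, nsmul_eq_mul, mul_one]
    rw [mul_div_assoc', mul_comm, mul_div_assoc, div_self hp2.ne', mul_one]
  exact absurd (hcount.trans (Finset.sum_le_sum hcmp)) (not_le.2 hfin)

end Pool.Agent.Y400.Tur
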