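import Pool.Agent.Y400.Tur.Indep

/-!
The case `t = 3`, `k = 5` with a small constant.
-/

set_option autoImplicit false
set_option linter.unusedSectionVars false

namespace Pool.Agent.Y400.Tur

open Finset

variable {V : Type} [Fintype V] [DecidableEq V]

/-- the numerical inequality -/
theorem num_three {a b s : ℕ} (hs : s ≤ a) (hb : 3 ≤ b) (hab : 5 * b ≤ 4 * a + 6) :
    (1 : ℚ) ≤ ((a - s : ℕ) : ℚ) * (1 / (((b - 2).choose 1 : ℕ) : ℚ)) +
      ((s.choose 2 : ℕ) : ℚ) * (1 / (((b - 1).choose 2 : ℕ) : ℚ)) := by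
  obtain ⟨c, rfl⟩ : ∃ c, b = c + 3 := ⟨b - 3, by omega⟩
  have e1 : c + 3 - 2 = c + 1 := by omega
  have e2 : c + 3 - 1 = c + 2 := by omega
  rw [e1, e2, Nat.choose_one_right, Nat.cast_choose_two, Nat.cast_choose_two, Nat.cast_sub hs]
  push_cast
  have hc1 : (0 : ℚ) < (c : ℚ) + 1 := by positivity
  have hc2 : (0 : ℚ) < (c : ℚ) + 2 := by positivity
  have h1 : (5 : ℚ) * (c + 3) ≤ 4 * a + 6 := by exact_mod_cast hab
  have h2 : ((a : ℚ) - s) * (1 / ((c : ℚ) + 1)) + (s : ℚ) * (s - 1) / 2 *
      (1 / (((c : ℚ) + 2) * ((c : ℚ) + 2 - 1) / 2))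
      = (((a : ℚ) - s) * (c + 2) + s * (s - 1)) / ((c + 1) * (c + 2)) := by
    have h3 : ((c : ℚ) + 2 - 1) = c + 1 := by ring
    rw [h3]
    field_simp
  rw [h2, le_div_iff₀ (mul_pos hc1 hc2)]
  nlinarith [sq_nonneg ((c : ℚ) + 3 - 2 * s), mul_le_mul_of_nonneg_right h1 hc2.le]

/-- heavy sets for `t = 3`, `k = 5` -/
theorem heavy_three {G : Finset (Finset V)} (hG : ∀ E ∈ G, E.card = 3) {A : Finset V}
    (hcov : ∀ K : Finset V, K.card = 5 → ∃ E ∈ G, E ⊆ K)
    (hbig : 5 * Aᶜ.card ≤ 4 * A.card + 6) (hb : 3 ≤ Aᶜ.card)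
    {T : Finset V} (hT : T ⊆ Aᶜ) (hTc : T.card = 3) (hno : ∀ E ∈ G, ¬ E ⊆ T) :
    ∃ E ⊆ T, E.card = 3 ∧ 1 ≤ wt G A 3 E := by
  classical
  refine ⟨T, le_rfl, hTc, ?_⟩
  set a := A.card with ha
  set b := Aᶜ.card with hbdef
  set R := (mixed G A).filter fun D => D ∩ Aᶜ ⊆ T with hR
  set R1 := R.filter fun D => (D ∩ A).card = 1 with hR1
  set R2 := R.filter fun D => (D ∩ A).card = 2 with hR2
  set S := A.filter fun x => ∀ D ∈ R, D ∩ A ≠ {x} with hS
  have hsplit : ∀ D : Finset V, (D ∩ A).card + (D ∩ Aᶜ).card = D.card := by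
    intro D
    have h5 : D ∩ Aᶜ = D \ A := by
      ext x; simp [Finset.mem_sdiff]
    rw [h5, Finset.card_inter_add_card_sdiff]
  have hGm : ∀ D ∈ R, D.card = 3 := by
    intro D hD
    rw [hR, Finset.mem_filter] at hD
    exact hG D (Finset.mem_filter.1 hD.1).1
  -- the weight
  have hwt : ((R1.card : ℕ) : ℚ) * (1 / (((b - 2).choose 1 : ℕ) : ℚ)) +
      ((R2.card : ℕ) : ℚ) * (1 / (((b - 1).choose 2 : ℕ) : ℚ)) ≤ wt G A 3 T := by
    have hdis : Disjoint R1 R2 := by
      rw [Finset.disjoint_left]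
      intro D h1 h2
      rw [hR1, Finset.mem_filter] at h1
      rw [hR2, Finset.mem_filter] at h2
      omega
    have hsub : R1 ∪ R2 ⊆ R :=
      Finset.union_subset (Finset.filter_subset _ _) (Finset.filter_subset _ _)
    have h1 : ∑ D ∈ R1 ∪ R2, 1 / (((b - (D ∩ Aᶜ).card).choose (3 - (D ∩ Aᶜ).card) : ℕ) : ℚ)
        ≤ wt G A 3 T := by
      unfold wt
      exact Finset.sum_le_sum_of_subset_of_nonneg hsub fun _ _ _ => by positivity
    refine le_trans (le_of_eq ?_) h1
    rw [Finset.sum_union hdis]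
    congr 1
    · rw [Finset.sum_congr rfl (g := fun _ => (1 / (((b - 2).choose 1 : ℕ) : ℚ))) ?_,
        Finset.sum_const, nsmul_eq_mul]
      intro D hD
      rw [hR1, Finset.mem_filter] at hD
      have h2 := hsplit D
      rw [hGm D hD.1, hD.2] at h2
      have h3 : (D ∩ Aᶜ).card = 2 := by omega
      rw [h3]
    · rw [Finset.sum_congr rfl (g := fun _ => (1 / (((b - 1).choose 2 : ℕ) : ℚ))) ?_,
        Finset.sum_const, nsmul_eq_mul]
      intro D hD
      rw [hR2, Finset.mem_filter] at hD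
      have h2 := hsplit D
      rw [hGm D hD.1, hD.2] at h2
      have h3 : (D ∩ Aᶜ).card = 1 := by omega
      rw [h3]
  -- the first kind
  have hc1 : a - S.card ≤ R1.card := by
    have h1 : (A \ S).powersetCard 1 ⊆ R1.image fun D => D ∩ A := by
      intro X hX
      rw [Finset.mem_powersetCard] at hX
      obtain ⟨x, rfl⟩ := Finset.card_eq_one.1 hX.2
      have hx := Finset.mem_sdiff.1 (hX.1 (Finset.mem_singleton_self x))
      have hx2 : ∃ D ∈ R, D ∩ A = {x} := by
        by_contra hcon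
        push Not at hcon
        exact hx.2 (Finset.mem_filter.2 ⟨hx.1, hcon⟩)
      obtain ⟨D, hD, hDx⟩ := hx2
      rw [Finset.mem_image]
      exact ⟨D, Finset.mem_filter.2 ⟨hD, by rw [hDx, Finset.card_singleton]⟩, hDx⟩
    have h2 := (Finset.card_le_card h1).trans Finset.card_image_le
    rw [Finset.card_powersetCard, Nat.choose_one_right,
      Finset.card_sdiff_of_subset (Finset.filter_subset _ _)] at h2
    exact h2
  -- the second kind
  have hc2 : S.card.choose 2 ≤ R2.card := by
    have h1 : S.powersetCard 2 ⊆ R2.image fun D => D ∩ A := by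
      intro X hX
      rw [Finset.mem_powersetCard] at hX
      have hXA : X ⊆ A := hX.1.trans (Finset.filter_subset _ _)
      have hdis : Disjoint X T := by
        rw [Finset.disjoint_left]
        intro x hx hxT
        exact (Finset.mem_compl.1 (hT hxT)) (hXA hx)
      obtain ⟨D, hD, hDs⟩ := hcov (X ∪ T) (by
        rw [Finset.card_union_of_disjoint hdis, hX.2, hTc])
      have h2 : D ∩ Aᶜ ⊆ T := by
        intro x hx
        rw [Finset.mem_inter, Finset.mem_compl] at hx
        rcases Finset.mem_union.1 (hDs hx.1) with h | h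
        · exact absurd (hXA h) hx.2
        · exact h
      have h3 : D ∩ A ⊆ X := by
        intro x hx
        rw [Finset.mem_inter] at hx
        rcases Finset.mem_union.1 (hDs hx.1) with h | h
        · exact h
        · exact absurd hx.2 (Finset.mem_compl.1 (hT h))
      have h4 := hsplit D
      rw [hG D hD] at h4
      have h5 := Finset.card_le_card h3
      rw [hX.2] at h5
      have hmix : D ∈ mixed G A := by
        unfold mixed
        rw [Finset.mem_filter]
        refine ⟨hD, fun h => ?_, fun h => ?_⟩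
        · have h6 : D ∩ A = D := Finset.inter_eq_left.2 h
          rw [h6, hG D hD] at h5
          omega
        · have h6 : D ∩ Aᶜ = D := Finset.inter_eq_left.2 h
          exact hno D hD (h6 ▸ h2)
      have hDR : D ∈ R := Finset.mem_filter.2 ⟨hmix, h2⟩
      have h0 : (D ∩ A).card ≠ 0 := by
        intro h0
        have h0' : D ∩ A = ∅ := Finset.card_eq_zero.1 h0
        apply hno D hD
        intro x hx
        refine h2 (Finset.mem_inter.2 ⟨hx, Finset.mem_compl.2 fun hxA => ?_⟩)
        have : x ∈ D ∩ A := Finset.mem_inter.2 ⟨hx, hxA⟩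
        rw [h0'] at this
        simp at this
      have h1' : (D ∩ A).card ≠ 1 := by
        intro h1'
        obtain ⟨x, hx⟩ := Finset.card_eq_one.1 h1'
        have hxX : x ∈ X := h3 (by rw [hx]; exact Finset.mem_singleton_self x)
        exact (Finset.mem_filter.1 (hX.1 hxX)).2 D hDR hx
      have h7 : (D ∩ A).card = 2 := by omega
      rw [Finset.mem_image]
      exact ⟨D, Finset.mem_filter.2 ⟨hDR, h7⟩,
        Finset.eq_of_subset_of_card_le h3 (by rw [hX.2, h7])⟩
    have h2 := (Finset.card_le_card h1).trans Finset.card_image_le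
    rw [Finset.card_powersetCard] at h2
    exact h2
  have hSa : S.card ≤ a := Finset.card_le_card (Finset.filter_subset _ _)
  refine (num_three hSa hb hbig).trans (le_trans ?_ hwt)
  refine add_le_add (mul_le_mul_of_nonneg_right (by exact_mod_cast hc1) (by positivity))
    (mul_le_mul_of_nonneg_right (by exact_mod_cast hc2) (by positivity))

end Pool.Agent.Y400.Tur
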